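import Mathlib

/-!
Reduced Burau matrices of the torus braids on blocks of consecutive strands and of their powers.
-/

set_option autoImplicit false

namespace Pool.Agent.Q50.TB

open Matrix Finset

variable {N : ℕ}

/-- The reduced Burau matrix, at `t`, of the standard generator number `j` (counted from `0`) of the
braid group on `N + 1` strands: the identity matrix except for row `j`, which is `(t, -t, 1)` in the
columns `j - 1`, `j`, `j + 1`. -/
def gen (N : ℕ) (t : ℂ) (j : ℕ) : Matrix (Fin N) (Fin N) ℂ := fun a b =>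
  if (a : ℕ) = j then
    (if (b : ℕ) + 1 = j then t else if (b : ℕ) = j then -t else if (b : ℕ) = j + 1 then 1 else 0)
  else if a = b then 1 else 0

/-- The torus braid `σ_{i+r-2} ⋯ σ_{i+1} σ_i` on the `r` strands `i, …, i + r - 1` (everything
counted from `0`); its `r`-th power is the full twist of these strands. -/
def torus (N : ℕ) (t : ℂ) (i r : ℕ) : Matrix (Fin N) (Fin N) ℂ :=
  ((List.range (r - 1)).reverse.map fun k => gen N t (i + k)).prod

/-- extension by zero: `E u p` is the value at the position `p = 1, …, N` -/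
noncomputable def E (u : Fin N → ℂ) (p : ℕ) : ℂ :=
  ∑ b : Fin N, if (b : ℕ) + 1 = p then u b else 0

theorem E_val (u : Fin N → ℂ) (a : Fin N) : E u ((a : ℕ) + 1) = u a := by
  rw [E, Finset.sum_eq_single a]
  · simp
  · intro b _ hb
    rw [if_neg]
    intro h
    apply hb
    ext
    omega
  · simp

theorem E_out (u : Fin N → ℂ) (p : ℕ) (hp : p = 0 ∨ N < p) : E u p = 0 := by
  rw [E]
  apply Finset.sum_eq_zero
  intro b _
  rw [if_neg]
  have := b.2
  omega

/-- restriction to the positions -/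
def R (N : ℕ) (v : ℕ → ℂ) : Fin N → ℂ := fun a => v ((a : ℕ) + 1)

theorem R_E (u : Fin N → ℂ) : R N (E u) = u := by
  ext a
  exact E_val u a

theorem E_R (v : ℕ → ℂ) (h : ∀ p, (p = 0 ∨ N < p) → v p = 0) : E (R N v) = v := by
  ext p
  by_cases hp : p = 0 ∨ N < p
  · rw [h p hp, E_out _ p hp]
  · push Not at hp
    obtain ⟨q, rfl⟩ : ∃ q, p = q + 1 := ⟨p - 1, by omega⟩
    exact E_val (R N v) ⟨q, by omega⟩

/-- the action of a generator -/
def act (t : ℂ) (j : ℕ) (v : ℕ → ℂ) : ℕ → ℂ := fun p =>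
  if p = j + 1 then t * v j - t * v (j + 1) + v (j + 2) else v p

theorem gen_mulVec (t : ℂ) {j : ℕ} (hj : j < N) (u : Fin N → ℂ) :
    E (gen N t j *ᵥ u) = act t j (E u) := by
  ext p
  by_cases hp : p = 0 ∨ N < p
  · rw [E_out _ p hp, act, if_neg (by omega), E_out _ p hp]
  · push Not at hp
    obtain ⟨q, rfl⟩ : ∃ q, p = q + 1 := ⟨p - 1, by omega⟩
    have hq : q < N := by omega
    have h1 := E_val (gen N t j *ᵥ u) ⟨q, hq⟩
    simp only at h1
    rw [h1, act, Matrix.mulVec, dotProduct]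
    by_cases hqj : q = j
    · subst hqj
      rw [if_pos rfl]
      simp only [E, Finset.mul_sum]
      rw [← Finset.sum_sub_distrib, ← Finset.sum_add_distrib]
      apply Finset.sum_congr rfl
      intro b _
      simp only [gen, if_true]
      split_ifs <;> first | omega | ring
    · rw [if_neg (by omega), Finset.sum_eq_single (⟨q, hq⟩ : Fin N)]
      · have h2 := E_val u ⟨q, hq⟩
        simp only at h2
        rw [h2]
        simp [gen, hqj]
      · intro b _ hb
        simp [gen, hqj, hb.symm]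
      · simp

/-- the action of the torus braid on a block -/
def bact (t : ℂ) (i r : ℕ) (v : ℕ → ℂ) : ℕ → ℂ := fun p =>
  if i < p ∧ p < i + r then v (p + 1) - t ^ (p - i) * (v (i + 1) - v i) else v p

theorem torus_mulVec_aux (t : ℂ) (i : ℕ) : ∀ k : ℕ, i + k ≤ N → ∀ u : Fin N → ℂ,
    E (((List.range k).reverse.map fun k => gen N t (i + k)).prod *ᵥ u) =
      bact t i (k + 1) (E u) := by
  intro k
  induction k with
  | zero =>
    intro _ u
    ext p
    simp only [List.range_zero, List.reverse_nil, List.map_nil, List.prod_nil, Matrix.one_mulVec,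
      bact]
    rw [if_neg (by omega)]
  | succ k ih =>
    intro hk u
    rw [List.range_succ, List.reverse_append, List.reverse_singleton, List.singleton_append,
      List.map_cons, List.prod_cons, ← Matrix.mulVec_mulVec, gen_mulVec t (by omega),
      ih (by omega) u]
    ext p
    simp only [act, bact]
    by_cases h1 : p = i + k + 1
    · subst h1
      have c1 : ¬ (i < i + k + 1 ∧ i + k + 1 < i + (k + 1)) := by omega
      have c2 : ¬ (i < i + k + 2 ∧ i + k + 2 < i + (k + 1)) := by omega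
      have c3 : i < i + k + 1 ∧ i + k + 1 < i + (k + 1 + 1) := by omega
      have e2 : i + k + 1 - i = k + 1 := by omega
      rw [if_pos rfl, if_neg c1, if_neg c2, if_pos c3, e2]
      rcases Nat.eq_zero_or_pos k with hk0 | hk0
      · subst hk0
        rw [if_neg (by omega)]
        simp only [add_zero]
        ring
      · rw [if_pos (by omega)]
        have e1 : i + k - i = k := by omega
        rw [e1]
        ring
    · rw [if_neg h1]
      by_cases h2 : i < p ∧ p < i + (k + 1)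
      · rw [if_pos h2, if_pos (by omega)]
      · rw [if_neg h2, if_neg (by omega)]

theorem torus_mulVec (t : ℂ) {i r : ℕ} (hr : 1 ≤ r) (hir : i + r ≤ N + 1) (u : Fin N → ℂ) :
    E (torus N t i r *ᵥ u) = bact t i r (E u) := by
  have h := torus_mulVec_aux (N := N) t i (r - 1) (by omega) u
  rw [torus, h]
  congr 1
  omega

/-- the quasi-periodic extension of the partial sums -/
noncomputable def W (t : ℂ) (i r : ℕ) (v : ℕ → ℂ) (k : ℤ) : ℂ :=
  t ^ ((r : ℤ) * (k / r)) * (v (i + (k % r).toNat) - v i) +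
    (v (i + r) - v i) * ((1 - t ^ ((r : ℤ) * (k / r))) / (1 - t ^ r))

theorem W_add (t : ℂ) (ht : t ≠ 0) {i r : ℕ} (hr : 1 ≤ r) (htr : t ^ r ≠ 1) (v : ℕ → ℂ) (k : ℤ) :
    W t i r v (k + r) = t ^ r * W t i r v k + (v (i + r) - v i) := by
  have hr0 : (r : ℤ) ≠ 0 := by omega
  have h1 : (k + r) / (r : ℤ) = k / r + 1 := by
    rw [Int.add_ediv_of_dvd_right (dvd_refl _), Int.ediv_self hr0]
  have h2 : (k + r) % (r : ℤ) = k % r := by
    rw [Int.add_emod_right]
  have h3 : t ^ ((r : ℤ) * (k / r + 1)) = t ^ ((r : ℤ) * (k / r)) * t ^ r := by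
    rw [mul_add, mul_one, zpow_add₀ ht, zpow_natCast]
  have h4 : (1 - t ^ r) ≠ 0 := fun h => htr (by linear_combination -h)
  rw [W, W, h1, h2, h3]
  field_simp
  ring

theorem W_small (t : ℂ) {i r : ℕ} (v : ℕ → ℂ) (k : ℕ) (hk : k < r) :
    W t i r v k = v (i + k) - v i := by
  have h1 : (k : ℤ) / r = 0 := Int.ediv_eq_zero_of_lt (by omega) (by omega)
  have h2 : (k : ℤ) % r = k := Int.emod_eq_of_lt (by omega) (by omega)
  rw [W, h1, h2]
  simp

/-- the action of the `m`-th power of the torus braid on a block -/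
noncomputable def F (t : ℂ) (i r : ℕ) (m : ℤ) (v : ℕ → ℂ) : ℕ → ℂ := fun p =>
  if i < p ∧ p < i + r then v i + W t i r v ((p - i : ℕ) + m) - t ^ (p - i) * W t i r v m else v p

theorem F_zero (t : ℂ) {i r : ℕ} (hr : 1 ≤ r) (v : ℕ → ℂ) : F t i r 0 v = v := by
  ext p
  rw [F]
  split_ifs with h
  · have h0 : W t i r v 0 = 0 := by
      have := W_small (i := i) (r := r) t v 0 (by omega)
      simpa using this
    have h1 := W_small (i := i) (r := r) t v (p - i) (by omega)
    have h2 : i + (p - i) = p := by omega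
    rw [add_zero, h1, h0, h2]
    ring
  · rfl

theorem bact_F (t : ℂ) (ht : t ≠ 0) {i r : ℕ} (hr : 1 ≤ r) (htr : t ^ r ≠ 1) (m : ℤ)
    (v : ℕ → ℂ) : bact t i r (F t i r m v) = F t i r (m + 1) v := by
  ext p
  rw [bact]
  split_ifs with h
  · have hi : F t i r m v i = v i := by rw [F, if_neg (by omega)]
    have hi1 : F t i r m v (i + 1) = v i + W t i r v (m + 1) - t * W t i r v m := by
      rw [F, if_pos (by omega)]
      have e1 : i + 1 - i = 1 := by omega
      rw [e1, pow_one, Nat.cast_one, add_comm (1:ℤ) m]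
    rw [hi, hi1]
    conv_rhs => rw [F, if_pos h]
    by_cases h2 : p + 1 < i + r
    · rw [F, if_pos (by omega)]
      have e1 : p + 1 - i = (p - i) + 1 := by omega
      have e2 : ((p - i + 1 : ℕ) : ℤ) + m = ((p - i : ℕ) : ℤ) + (m + 1) := by push_cast; ring
      rw [e1, e2, pow_succ]
      ring
    · have h3 : p + 1 = i + r := by omega
      rw [F, if_neg (by omega), h3]
      have e2 : ((p - i : ℕ) : ℤ) + (m + 1) = m + r := by
        have : ((p - i : ℕ) : ℤ) = (r : ℤ) - 1 := by omega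
        rw [this]; ring
      have e3 : t ^ r = t ^ (p - i) * t := by
        rw [← pow_succ]
        congr 1
        omega
      rw [e2, W_add t ht hr htr, e3]
      ring
  · rw [F, if_neg h, F, if_neg h]

theorem F_out (t : ℂ) {i r : ℕ} (hir : i + r ≤ N + 1) (m : ℤ) (u : Fin N → ℂ) :
    ∀ p, (p = 0 ∨ N < p) → F t i r m (E u) p = 0 := by
  intro p hp
  rw [F, if_neg (by omega), E_out u p hp]

theorem gen_det (t : ℂ) {j : ℕ} (hj : j < N) : (gen N t j).det = -t := by
  have h : gen N t j = (1 : Matrix (Fin N) (Fin N) ℂ).updateRow ⟨j, hj⟩ (gen N t j ⟨j, hj⟩) := by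
    ext a b
    by_cases ha : a = ⟨j, hj⟩
    · subst ha; simp
    · rw [Matrix.updateRow_ne ha]
      have : (a : ℕ) ≠ j := fun h => ha (by ext; exact h)
      simp [gen, this, Matrix.one_apply]
  rw [h, ← Matrix.cramer_transpose_apply, Matrix.transpose_one, Matrix.cramer_one]
  simp [gen]

theorem torus_det_ne_zero (t : ℂ) (ht : t ≠ 0) {i r : ℕ} (hr : 1 ≤ r) (hir : i + r ≤ N + 1) :
    (torus N t i r).det ≠ 0 := by
  rw [torus]
  have key : ∀ L : List ℕ, (∀ k ∈ L, i + k < N) →
      ((L.map fun k => gen N t (i + k)).prod).det ≠ 0 := by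
    intro L
    induction L with
    | nil => intro _; simp
    | cons a L ih =>
      intro h
      rw [List.map_cons, List.prod_cons, Matrix.det_mul, gen_det t (h a List.mem_cons_self)]
      exact mul_ne_zero (neg_ne_zero.mpr ht) (ih fun k hk => h k (List.mem_cons_of_mem _ hk))
  apply key
  intro k hk
  rw [List.mem_reverse, List.mem_range] at hk
  omega

/-- **powers of torus braids** -/
theorem torus_zpow_mulVec (t : ℂ) (ht : t ≠ 0) {i r : ℕ} (hr : 1 ≤ r) (hir : i + r ≤ N + 1)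
    (htr : t ^ r ≠ 1) (m : ℤ) (u : Fin N → ℂ) :
    (torus N t i r ^ m) *ᵥ u = R N (F t i r m (E u)) := by
  have hdet : IsUnit (torus N t i r).det := (torus_det_ne_zero t ht hr hir).isUnit
  have step : ∀ m : ℤ, torus N t i r *ᵥ R N (F t i r m (E u)) = R N (F t i r (m + 1) (E u)) := by
    intro m
    rw [← R_E (torus N t i r *ᵥ R N (F t i r m (E u))), torus_mulVec t hr hir,
      E_R _ (F_out t hir m u), bact_F t ht hr htr]
  induction m using Int.induction_on with
  | zero =>
    rw [zpow_zero, Matrix.one_mulVec, F_zero t hr, R_E]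
  | succ m ih =>
    rw [← step, ← ih, Matrix.mulVec_mulVec, add_comm, Matrix.zpow_one_add hdet]
  | pred m ih =>
    have h1 := step (-m - 1)
    rw [sub_add_cancel, ← ih] at h1
    have h2 : torus N t i r ^ (-(m:ℤ)) = torus N t i r * torus N t i r ^ (-(m:ℤ) - 1) := by
      rw [← Matrix.zpow_one_add hdet]
      congr 1
      ring
    rw [h2, ← Matrix.mulVec_mulVec] at h1
    have h3 := congrArg (fun x => (torus N t i r)⁻¹ *ᵥ x) h1
    simp only [Matrix.mulVec_mulVec] at h3
    rw [Matrix.nonsing_inv_mul_cancel_left _ _ hdet, Matrix.nonsing_inv_mul _ hdet,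
      Matrix.one_mulVec] at h3
    exact h3.symm

theorem norm_W_le (t : ℂ) (ht : ‖t‖ = 1) {i r : ℕ} (v : ℕ → ℂ)
    (hv : ∀ p, ‖v p‖ ≤ 1) (k : ℤ) : ‖W t i r v k‖ ≤ 2 + 4 / ‖1 - t ^ r‖ := by
  have h1 : ‖t ^ ((r : ℤ) * (k / r))‖ = 1 := by rw [norm_zpow, ht, _root_.one_zpow]
  rw [W]
  refine (norm_add_le _ _).trans ?_
  rw [norm_mul, norm_mul, norm_div, h1, one_mul]
  have h2 : ‖v (i + (k % r).toNat) - v i‖ ≤ 2 := by
    refine (norm_sub_le _ _).trans ?_
    linarith [hv (i + (k % r).toNat), hv i]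
  have h3 : ‖v (i + r) - v i‖ ≤ 2 := by
    refine (norm_sub_le _ _).trans ?_
    linarith [hv (i + r), hv i]
  have h4 : ‖1 - t ^ ((r : ℤ) * (k / r))‖ ≤ 2 := by
    refine (norm_sub_le _ _).trans ?_
    rw [h1, norm_one]
    norm_num
  have h5 : ‖v (i + r) - v i‖ * (‖1 - t ^ ((r : ℤ) * (k / r))‖ / ‖1 - t ^ r‖) ≤
      4 / ‖1 - t ^ r‖ := by
    rw [← mul_div_assoc]
    apply div_le_div_of_nonneg_right _ (norm_nonneg _)
    nlinarith [norm_nonneg (v (i + r) - v i), norm_nonneg (1 - t ^ ((r : ℤ) * (k / r)))]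
  linarith

theorem norm_E_le (u : Fin N → ℂ) (hu : ∀ a, ‖u a‖ ≤ 1) (p : ℕ) : ‖E u p‖ ≤ 1 := by
  by_cases hp : p = 0 ∨ N < p
  · rw [E_out u p hp, norm_zero]; exact zero_le_one
  · push Not at hp
    obtain ⟨q, rfl⟩ : ∃ q, p = q + 1 := ⟨p - 1, by omega⟩
    have h := E_val u ⟨q, by omega⟩
    simp only at h
    rw [h]
    exact hu _

/-- the `ℓ¹` norm of a vector from its values on the unit ball of `ℓ^∞` -/
theorem sum_norm_le (ρ : Fin N → ℂ) (C : ℝ)
    (h : ∀ u : Fin N → ℂ, (∀ a, ‖u a‖ ≤ 1) → ‖∑ b, ρ b * u b‖ ≤ C) : ∑ b, ‖ρ b‖ ≤ C := by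
  have h1 := h (fun b => (starRingEnd ℂ (ρ b)) / ‖ρ b‖) (by
    intro a
    rw [norm_div, RCLike.norm_conj, Complex.norm_real, norm_norm]
    exact div_self_le_one _)
  have h2 : ∀ b, ρ b * ((starRingEnd ℂ (ρ b)) / ‖ρ b‖) = ((‖ρ b‖ : ℝ) : ℂ) := by
    intro b
    by_cases hb : ρ b = 0
    · simp [hb]
    · have hb' : ((‖ρ b‖ : ℝ) : ℂ) ≠ 0 := by
        simpa using hb
      rw [← mul_div_assoc, Complex.mul_conj, Complex.normSq_eq_norm_sq, div_eq_iff hb']
      push_cast
      ring
  simp_rw [h2] at h1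
  rw [← Complex.ofReal_sum, Complex.norm_real, Real.norm_of_nonneg] at h1
  · exact h1
  · exact Finset.sum_nonneg fun b _ => norm_nonneg _

/-- the rows of the powers of torus braids -/
theorem torus_row_le (t : ℂ) (ht : ‖t‖ = 1) {i r : ℕ} (hr : 1 ≤ r) (hir : i + r ≤ N + 1)
    (htr : t ^ r ≠ 1) (m : ℤ) (a : Fin N) :
    ∑ b, ‖(torus N t i r ^ m) a b‖ ≤ 18 / ‖1 - t ^ r‖ := by
  have ht0 : t ≠ 0 := by
    intro h
    rw [h, norm_zero] at ht
    exact zero_ne_one ht
  apply sum_norm_le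
  intro u hu
  have h1 : ∑ b, (torus N t i r ^ m) a b * u b = F t i r m (E u) ((a : ℕ) + 1) := by
    have h2 := congrFun (torus_zpow_mulVec t ht0 hr hir htr m u) a
    rw [Matrix.mulVec, dotProduct] at h2
    rw [h2]
    rfl
  rw [h1]
  have hE := norm_E_le u hu
  have hpos : 0 < ‖1 - t ^ r‖ := by
    rw [norm_pos_iff]
    intro h
    exact htr (by linear_combination -h)
  have hle : ‖1 - t ^ r‖ ≤ 2 := by
    refine (norm_sub_le _ _).trans ?_
    rw [norm_pow, ht, one_pow, norm_one]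
    norm_num
  have h5 : 5 ≤ 10 / ‖1 - t ^ r‖ := by
    rw [le_div_iff₀ hpos]
    linarith
  have h18 : 18 / ‖1 - t ^ r‖ = 10 / ‖1 - t ^ r‖ + 8 / ‖1 - t ^ r‖ := by ring
  have h48 : 8 / ‖1 - t ^ r‖ = 4 / ‖1 - t ^ r‖ + 4 / ‖1 - t ^ r‖ := by ring
  have h8pos : 0 ≤ 8 / ‖1 - t ^ r‖ := by positivity
  rw [F]
  split_ifs with h
  · refine (norm_sub_le _ _).trans ?_
    have h6 := norm_add_le (E u i) (W t i r (E u) (((a : ℕ) + 1 - i : ℕ) + m))
    have h7 := norm_W_le t ht (i := i) (r := r) (E u) hE (((a : ℕ) + 1 - i : ℕ) + m)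
    have h8 := norm_W_le t ht (i := i) (r := r) (E u) hE m
    rw [norm_mul, norm_pow, ht, one_pow, one_mul]
    have h9 := hE i
    linarith
  · have h9 := hE ((a : ℕ) + 1)
    linarith

theorem torus_row_out (t : ℂ) (ht : t ≠ 0) {i r : ℕ} (hr : 1 ≤ r) (hir : i + r ≤ N + 1)
    (htr : t ^ r ≠ 1) (m : ℤ) (a : Fin N) (ha : ¬ (i ≤ (a : ℕ) ∧ (a : ℕ) + 1 < i + r)) :
    (torus N t i r ^ m) a = Pi.single a 1 := by
  ext b
  have h2 := congrFun (torus_zpow_mulVec t ht hr hir htr m (Pi.single b 1)) a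
  rw [Matrix.mulVec_single_one] at h2
  have h3 : (torus N t i r ^ m).col b a = (torus N t i r ^ m) a b := rfl
  rw [h3] at h2
  rw [h2, R, F, if_neg (by omega), E_val, Pi.single_comm]

end Pool.Agent.Q50.TB
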