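import Mathlib

/-!
A determinant inequality for `1 - A * B₁ * ⋯ * B_ℓ`.
-/

set_option autoImplicit false

namespace Pool.Agent.Q50.TB

open Matrix Finset

variable {N : ℕ}

/-- the Leibniz bound by row sums -/
theorem norm_det_le (M : Matrix (Fin N) (Fin N) ℂ) :
    ‖M.det‖ ≤ ∏ i, ∑ j, ‖M i j‖ := by
  rw [← Matrix.det_transpose, Matrix.det_apply]
  refine (norm_sum_le _ _).trans ?_
  have h1 : ∀ σ : Equiv.Perm (Fin N),
      ‖Equiv.Perm.sign σ • ∏ i, Mᵀ (σ i) i‖ = ∏ i, ‖M i (σ i)‖ := by
    intro σ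
    rw [Units.smul_def, zsmul_eq_mul, norm_mul, norm_prod]
    rcases Int.units_eq_one_or (Equiv.Perm.sign σ) with h | h <;> simp [h]
  simp_rw [h1]
  rw [Finset.prod_univ_sum (fun _ => Finset.univ) (fun i j => ‖M i j‖)]
  rw [Fintype.piFinset_univ]
  have hinj : Function.Injective (fun σ : Equiv.Perm (Fin N) => (σ : Fin N → Fin N)) :=
    DFunLike.coe_injective
  calc ∑ σ : Equiv.Perm (Fin N), ∏ i, ‖M i (σ i)‖
      = ∑ f ∈ Finset.univ.image (fun σ : Equiv.Perm (Fin N) => (σ : Fin N → Fin N)),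
          ∏ i, ‖M i (f i)‖ := by
        rw [Finset.sum_image (fun a _ b _ h => hinj h)]
    _ ≤ ∑ f : Fin N → Fin N, ∏ i, ‖M i (f i)‖ := by
        apply Finset.sum_le_sum_of_subset_of_nonneg (Finset.subset_univ _)
        intro f _ _
        exact Finset.prod_nonneg fun i _ => norm_nonneg _

/-- matrices whose rows are zero or basis vectors -/
def IsPF (M : Matrix (Fin N) (Fin N) ℂ) : Prop :=
  ∀ a, M a = 0 ∨ ∃ b, M a = Pi.single b 1

theorem IsPF.one : IsPF (1 : Matrix (Fin N) (Fin N) ℂ) := by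
  intro a
  right
  refine ⟨a, ?_⟩
  ext b
  simp [Matrix.one_apply, Pi.single_apply, eq_comm]

theorem IsPF.mul {M P : Matrix (Fin N) (Fin N) ℂ} (hM : IsPF M) (hP : IsPF P) :
    IsPF (M * P) := by
  intro a
  rcases hM a with h | ⟨b, h⟩
  · left
    ext c
    rw [Matrix.mul_apply, h]
    simp
  · have h2 : (M * P) a = P b := by
      ext c
      rw [Matrix.mul_apply, h]
      simp [Pi.single_apply]
    rw [h2]
    exact hP b

theorem base_bound {A : Matrix (Fin N) (Fin N) ℂ} (hA : IsPF A) :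
    ‖(1 - A).det‖ ≤ 2 ^ N := by
  refine (norm_det_le _).trans ?_
  have h : ∀ i : Fin N, ∑ j, ‖(1 - A) i j‖ ≤ 2 := by
    intro i
    have h1 : ∑ j, ‖(1 - A) i j‖ ≤ ∑ j, (‖(1 : Matrix (Fin N) (Fin N) ℂ) i j‖ + ‖A i j‖) := by
      apply Finset.sum_le_sum
      intro j _
      rw [Matrix.sub_apply]
      exact norm_sub_le _ _
    refine h1.trans ?_
    rw [Finset.sum_add_distrib]
    have h2 : ∑ j, ‖(1 : Matrix (Fin N) (Fin N) ℂ) i j‖ = 1 := by
      rw [Finset.sum_eq_single i]
      · simp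
      · intro b _ hb
        simp [hb.symm]
      · simp
    have h3 : ∑ j, ‖A i j‖ ≤ 1 := by
      rcases hA i with h | ⟨b, h⟩
      · simp [h]
      · rw [h, Finset.sum_eq_single b]
        · simp
        · intro c _ hc
          simp [hc]
        · simp
    linarith
  calc ∏ i : Fin N, ∑ j, ‖(1 - A) i j‖ ≤ ∏ _i : Fin N, (2:ℝ) :=
        Finset.prod_le_prod (fun i _ => Finset.sum_nonneg fun j _ => norm_nonneg _)
          (fun i _ => h i)
    _ = 2 ^ N := by simp

/-- the determinant of `1 - X B Y` is an affine function of each row of `B` -/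
theorem affine_row (X Y B : Matrix (Fin N) (Fin N) ℂ) (s : Fin N) (ρ : Fin N → ℂ) :
    (1 - X * B.updateRow s ρ * Y).det =
      (1 - X * B.updateRow s 0 * Y).det + ∑ k, ρ k *
        ((1 - X * B.updateRow s (Pi.single k 1) * Y).det -
          (1 - X * B.updateRow s 0 * Y).det) := by
  set Z := 1 - X * B.updateRow s 0 * Y with hZ
  -- the column and the bordered matrix
  let F : (Fin N → ℂ) → Matrix (Unit ⊕ Fin N) (Unit ⊕ Fin N) ℂ := fun v =>
    Matrix.fromBlocks 1 (Matrix.of fun _ c => (v ᵥ* Y) c) (Matrix.of fun a _ => X a s) Z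
  have key : ∀ v : Fin N → ℂ, (1 - X * B.updateRow s v * Y).det = (F v).det := by
    intro v
    have h1 : (F v).det = (Z - (Matrix.of fun a (_ : Unit) => X a s) *
        (Matrix.of fun (_ : Unit) c => (v ᵥ* Y) c)).det := by
      simp only [F]
      rw [Matrix.det_fromBlocks_one₁₁]
    rw [h1]
    congr 1
    ext a c
    rw [hZ]
    simp only [Matrix.sub_apply, Matrix.mul_apply, Matrix.of_apply, Finset.univ_unique,
      Finset.sum_singleton]
    rw [sub_sub]
    congr 1
    have h2 : ∀ j, ∑ i, X a i * B.updateRow s v i j =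
        (∑ i, X a i * B.updateRow s 0 i j) + X a s * v j := by
      intro j
      rw [← Finset.add_sum_erase Finset.univ (fun i => X a i * B.updateRow s v i j)
          (Finset.mem_univ s),
        ← Finset.add_sum_erase Finset.univ (fun i => X a i * B.updateRow s 0 i j)
          (Finset.mem_univ s)]
      have h3 : ∑ x ∈ Finset.univ.erase s, X a x * B.updateRow s v x j =
          ∑ x ∈ Finset.univ.erase s, X a x * B.updateRow s 0 x j := by
        apply Finset.sum_congr rfl
        intro x hx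
        rw [Matrix.updateRow_ne (Finset.ne_of_mem_erase hx),
          Matrix.updateRow_ne (Finset.ne_of_mem_erase hx)]
      rw [h3, Matrix.updateRow_self, Matrix.updateRow_self]
      simp
      ring
    simp_rw [h2, add_mul, Finset.sum_add_distrib]
    congr 1
    rw [Matrix.vecMul, dotProduct, Finset.mul_sum]
    apply Finset.sum_congr rfl
    intro j _
    ring
  -- linearity in the first row
  have hF : ∀ v : Fin N → ℂ, F v = (F 0).updateRow (Sum.inl ())
      (Sum.elim (fun _ => 1) (fun c => (v ᵥ* Y) c)) := by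
    intro v
    ext a c
    rcases a with a | a
    · rcases c with c | c <;> simp [F]
    · rcases c with c | c <;> simp [F]
  let φ : (Unit ⊕ Fin N → ℂ) → ℂ := fun x => ((F 0).updateRow (Sum.inl ()) x).det
  have φadd : ∀ x y, φ (x + y) = φ x + φ y := by
    intro x y
    exact Matrix.det_updateRow_add _ _ _ _
  have φsmul : ∀ (c : ℂ) x, φ (c • x) = c * φ x := by
    intro c x
    exact Matrix.det_updateRow_smul _ _ _ _
  have φsum : ∀ (c : Fin N → ℂ) (x : Fin N → Unit ⊕ Fin N → ℂ) (S : Finset (Fin N)),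
      φ (∑ k ∈ S, c k • x k) = ∑ k ∈ S, c k * φ (x k) := by
    intro c x S
    induction S using Finset.induction_on with
    | empty =>
      have := φsmul 0 0
      simpa using this
    | insert a S ha ih =>
      rw [Finset.sum_insert ha, Finset.sum_insert ha, φadd, φsmul, ih]
  have hrow : ∀ v : Fin N → ℂ, (Sum.elim (fun _ => 1) (fun c => (v ᵥ* Y) c) : Unit ⊕ Fin N → ℂ) =
      Sum.elim (fun _ => 1) 0 + ∑ k, v k • (Sum.elim 0 (fun c => Y k c) : Unit ⊕ Fin N → ℂ) := by
    intro v
    ext c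
    rcases c with c | c
    · simp
    · simp [Matrix.vecMul, dotProduct]
  have hval : ∀ v : Fin N → ℂ, (F v).det = φ (Sum.elim (fun _ => 1) 0) +
      ∑ k, v k * φ (Sum.elim 0 (fun c => Y k c)) := by
    intro v
    rw [hF v, hrow v]
    change φ _ = _
    rw [φadd, φsum]
  have h0 : Z.det = φ (Sum.elim (fun _ => 1) 0) := by
    have h := key 0
    rw [← hZ] at h
    rw [h, hval 0]
    simp
  have hk : ∀ k, (1 - X * B.updateRow s (Pi.single k 1) * Y).det - Z.det =
      φ (Sum.elim 0 (fun c => Y k c)) := by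
    intro k
    rw [key, hval, h0]
    simp [Pi.single_apply]
  rw [key ρ, hval ρ, h0]
  congr 1
  apply Finset.sum_congr rfl
  intro k _
  rw [← hk k, h0]

theorem det_bound_one (X Y : Matrix (Fin N) (Fin N) ℂ) (K : ℝ)
    (hK : ∀ B : Matrix (Fin N) (Fin N) ℂ, IsPF B → ‖(1 - X * B * Y).det‖ ≤ K)
    (T : Finset (Fin N)) :
    ∀ B : Matrix (Fin N) (Fin N) ℂ, (∀ a ∉ T, B a = 0 ∨ ∃ b, B a = Pi.single b 1) →
      ‖(1 - X * B * Y).det‖ ≤ K * ∏ a ∈ T, (1 + 2 * ∑ b, ‖B a b‖) := by
  induction T using Finset.induction_on with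
  | empty =>
    intro B hB
    simpa using hK B fun a => hB a (by simp)
  | insert s T hs ih =>
    intro B hB
    have hBs : B.updateRow s (B s) = B := by
      ext a b
      by_cases h : a = s
      · subst h; simp
      · rw [Matrix.updateRow_ne h]
    have hv : ∀ v : Fin N → ℂ, (v = 0 ∨ ∃ b, v = Pi.single b 1) →
        ‖(1 - X * B.updateRow s v * Y).det‖ ≤ K * ∏ a ∈ T, (1 + 2 * ∑ b, ‖B a b‖) := by
      intro v hv
      have h1 := ih (B.updateRow s v) (by
        intro a ha
        by_cases h : a = s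
        · subst h
          have h2 : B.updateRow a v a = v := by ext b; simp
          rw [h2]
          exact hv
        · have h2 : B.updateRow s v a = B a := by ext b; rw [Matrix.updateRow_ne h]
          rw [h2]
          exact hB a (by simp [h, ha]))
      have h3 : ∏ a ∈ T, (1 + 2 * ∑ b, ‖B.updateRow s v a b‖) =
          ∏ a ∈ T, (1 + 2 * ∑ b, ‖B a b‖) := by
        apply Finset.prod_congr rfl
        intro a ha
        have h4 : a ≠ s := by rintro rfl; exact hs ha
        simp_rw [Matrix.updateRow_ne h4]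
      rwa [h3] at h1
    set K' := K * ∏ a ∈ T, (1 + 2 * ∑ b, ‖B a b‖) with hK'
    have h0 := hv 0 (Or.inl rfl)
    have h1 : ∀ k, ‖(1 - X * B.updateRow s (Pi.single k 1) * Y).det‖ ≤ K' :=
      fun k => hv _ (Or.inr ⟨k, rfl⟩)
    have h2 := affine_row X Y B s (B s)
    rw [hBs] at h2
    rw [h2, Finset.prod_insert hs]
    have h3 : ‖∑ k, B s k * ((1 - X * B.updateRow s (Pi.single k 1) * Y).det -
          (1 - X * B.updateRow s 0 * Y).det)‖ ≤ ∑ k, ‖B s k‖ * (2 * K') := by
      refine (norm_sum_le _ _).trans (Finset.sum_le_sum fun k _ => ?_)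
      rw [norm_mul]
      apply mul_le_mul_of_nonneg_left _ (norm_nonneg _)
      refine (norm_sub_le _ _).trans ?_
      linarith [h1 k]
    have h4 : K * ((1 + 2 * ∑ b, ‖B s b‖) * ∏ a ∈ T, (1 + 2 * ∑ b, ‖B a b‖)) =
        K' + ∑ k, ‖B s k‖ * (2 * K') := by
      rw [← Finset.sum_mul, hK']
      ring
    rw [h4]
    exact (norm_add_le _ _).trans (add_le_add h0 h3)

/-- **the determinant inequality** -/
theorem det_bound_list (L : List (Matrix (Fin N) (Fin N) ℂ × Finset (Fin N)))
    (hL : ∀ x ∈ L, ∀ a ∉ x.2, x.1 a = 0 ∨ ∃ b, x.1 a = Pi.single b 1) :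
    ∀ A : Matrix (Fin N) (Fin N) ℂ, IsPF A →
      ‖(1 - A * (L.map Prod.fst).prod).det‖ ≤
        2 ^ N * (L.map fun x => ∏ a ∈ x.2, (1 + 2 * ∑ b, ‖x.1 a b‖)).prod := by
  induction L with
  | nil =>
    intro A hA
    simpa using base_bound hA
  | cons x L ih =>
    intro A hA
    have ih' := ih (fun y hy => hL y (List.mem_cons_of_mem _ hy))
    rw [List.map_cons, List.prod_cons, List.map_cons, List.prod_cons, ← mul_assoc]
    have h := det_bound_one A (L.map Prod.fst).prod _ (fun B hB => ih' (A * B) (hA.mul hB))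
      x.2 x.1 (hL x List.mem_cons_self)
    refine h.trans (le_of_eq ?_)
    ring

end Pool.Agent.Q50.TB
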