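import Mathlib
import Pool.Agent.Q50.TB.Det
import Pool.Agent.Q50.TB.Burau
import Pool.Agent.Y947.DP.Fin
import Pool.Agent.H261R2.CM.L2

set_option autoImplicit false

namespace Pool.Agent.Q50.TB

open Matrix Finset Polynomial

variable {N : ℕ}

/-- The reduced Burau matrix of the product of the powers `(torus i r) ^ s`, `(i, r, s) ∈ w`. -/
noncomputable def braid (N : ℕ) (t : ℂ) (w : List (ℕ × ℕ × ℤ)) : Matrix (Fin N) (Fin N) ℂ :=
  (w.map fun x => torus N t x.1 x.2.1 ^ x.2.2).prod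

/-- the blocks have at least two strands and lie inside of the `N + 1` strands -/
def Valid (N : ℕ) (w : List (ℕ × ℕ × ℤ)) : Prop := ∀ x ∈ w, 2 ≤ x.2.1 ∧ x.1 + x.2.1 ≤ N + 1

/-- `D` and `C` are complementary factors of `det (1 - ψ(β))`, up to a power of `t`, where `ψ(β)` is
the reduced Burau matrix of the braid `β` on `N + 1` strands. For `C = 1 + t + ⋯ + t ^ N` this says
that `D` is the Alexander polynomial of the closure of `β`. -/
def Compl (N : ℕ) (w : List (ℕ × ℕ × ℤ)) (D C : ℤ[X]) : Prop :=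
  ∃ k : ℤ, ∀ t : ℂ, t ≠ 0 → aeval t D * aeval t C = t ^ k * (1 - braid N t w).det

/-- the length of a polynomial: the sum of the absolute values of the coefficients -/
def len (C : ℤ[X]) : ℤ := ∑ i ∈ C.support, |C.coeff i|

/-- number of strands plus the sum of the sizes of the blocks -/
def size (N : ℕ) (w : List (ℕ × ℕ × ℤ)) : ℕ := (N + 1) + (w.map fun x => x.2.1).sum

theorem det_le (t : ℂ) (ht : ‖t‖ = 1) (w : List (ℕ × ℕ × ℤ)) (hw : Valid N w)
    (hr : ∀ x ∈ w, t ^ x.2.1 ≠ 1) :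
    ‖(1 - braid N t w).det‖ ≤
      2 ^ N * (w.map fun x => (38 / ‖1 - t ^ x.2.1‖) ^ (x.2.1 - 1)).prod := by
  have ht0 : t ≠ 0 := by
    intro h
    rw [h, norm_zero] at ht
    exact zero_ne_one ht
  let S : ℕ × ℕ × ℤ → Finset (Fin N) := fun x =>
    Finset.univ.filter fun a => x.1 ≤ (a : ℕ) ∧ (a : ℕ) + 1 < x.1 + x.2.1
  have h1 := det_bound_list (N := N)
    (w.map fun x => (torus N t x.1 x.2.1 ^ x.2.2, S x)) (by
      intro y hy a ha
      rw [List.mem_map] at hy
      obtain ⟨x, hx, rfl⟩ := hy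
      right
      refine ⟨a, torus_row_out t ht0 (by have := hw x hx; omega) (hw x hx).2 (hr x hx) _ a ?_⟩
      simpa [S] using ha) 1 IsPF.one
  rw [one_mul, List.map_map, List.map_map] at h1
  have h2 : (List.map (Prod.fst ∘ fun x : ℕ × ℕ × ℤ => (torus N t x.1 x.2.1 ^ x.2.2, S x)) w).prod
      = braid N t w := rfl
  rw [h2] at h1
  refine h1.trans ?_
  apply mul_le_mul_of_nonneg_left _ (by positivity)
  clear h1 h2
  induction w with
  | nil => simp
  | cons x w ih =>
    rw [List.map_cons, List.prod_cons, List.map_cons, List.prod_cons]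
    have hxv := hw x List.mem_cons_self
    have hxr := hr x List.mem_cons_self
    have hpos : 0 < ‖1 - t ^ x.2.1‖ := by
      rw [norm_pos_iff]
      intro h
      exact hxr (by linear_combination -h)
    have hle : ‖1 - t ^ x.2.1‖ ≤ 2 := by
      refine (norm_sub_le _ _).trans ?_
      rw [norm_pow, ht, one_pow, norm_one]
      norm_num
    have hrow : ∀ a : Fin N, 1 + 2 * ∑ b, ‖(torus N t x.1 x.2.1 ^ x.2.2) a b‖ ≤
        38 / ‖1 - t ^ x.2.1‖ := by
      intro a
      have h3 := torus_row_le t ht (by omega) hxv.2 hxr x.2.2 a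
      have h4 : 1 ≤ 2 / ‖1 - t ^ x.2.1‖ := by
        rw [le_div_iff₀ hpos]; linarith
      have h5 : 38 / ‖1 - t ^ x.2.1‖ = 2 / ‖1 - t ^ x.2.1‖ + 2 * (18 / ‖1 - t ^ x.2.1‖) := by ring
      linarith
    have hbase : 1 ≤ 38 / ‖1 - t ^ x.2.1‖ := by
      rw [le_div_iff₀ hpos]; linarith
    have hcard : (S x).card ≤ x.2.1 - 1 := by
      have h6 : (S x).card ≤ (Finset.Ico x.1 (x.1 + x.2.1 - 1)).card := by
        apply Finset.card_le_card_of_injOn (fun a : Fin N => (a : ℕ))
        · intro a ha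
          simp only [S, Finset.coe_filter, Finset.mem_univ, true_and, Set.mem_ofPred_eq] at ha
          simp only [Finset.coe_Ico, Set.mem_Ico]
          omega
        · intro a _ b _ h
          exact Fin.ext h
      rw [Nat.card_Ico] at h6
      omega
    apply mul_le_mul
    · simp only [Function.comp_apply]
      calc ∏ a ∈ S x, (1 + 2 * ∑ b, ‖(torus N t x.1 x.2.1 ^ x.2.2) a b‖)
          ≤ ∏ _a ∈ S x, 38 / ‖1 - t ^ x.2.1‖ :=
            Finset.prod_le_prod (fun a _ => by positivity) (fun a _ => hrow a)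
        _ = (38 / ‖1 - t ^ x.2.1‖) ^ (S x).card := by rw [Finset.prod_const]
        _ ≤ _ := pow_le_pow_right₀ hbase hcard
    · exact ih (fun y hy => hw y (List.mem_cons_of_mem _ hy))
        (fun y hy => hr y (List.mem_cons_of_mem _ hy))
    · apply List.prod_nonneg
      intro y hy
      rw [List.mem_map] at hy
      obtain ⟨z, _, rfl⟩ := hy
      exact Finset.prod_nonneg fun a _ => by positivity
    · positivity

/-- the denominator -/
noncomputable def Qp (C : ℤ[X]) (w : List (ℕ × ℕ × ℤ)) : ℤ[X] :=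
  C * (w.map fun x => (1 - X ^ x.2.1 : ℤ[X]) ^ (x.2.1 - 1)).prod

theorem Qp_eval (C : ℤ[X]) (w : List (ℕ × ℕ × ℤ)) (z : ℂ) :
    aeval z (Qp C w) = aeval z C *
      (w.map fun x => (1 - z ^ x.2.1) ^ (x.2.1 - 1)).prod := by
  rw [Qp, map_mul, map_list_prod, List.map_map]
  congr 2
  apply List.map_congr_left
  intro x _
  simp

theorem Qp_ne_zero (C : ℤ[X]) (hC : C ≠ 0) (w : List (ℕ × ℕ × ℤ)) (hw : Valid N w) :
    Qp C w ≠ 0 := by
  rw [Qp]
  apply mul_ne_zero hC
  intro h
  rw [List.prod_eq_zero_iff, List.mem_map] at h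
  obtain ⟨x, hx, h⟩ := h
  have h1 := eq_zero_of_pow_eq_zero h
  have h2 := congrArg (fun p : ℤ[X] => p.eval 0) h1
  have h3 := hw x hx
  simp only [eval_sub, eval_one, eval_pow, eval_X, eval_zero] at h2
  rw [zero_pow (by omega)] at h2
  norm_num at h2

theorem norm_le_len (C : ℤ[X]) (z : ℂ) (hz : ‖z‖ = 1) : ‖aeval z C‖ ≤ len C := by
  rw [aeval_eq_sum_range, len]
  refine (norm_sum_le _ _).trans ?_
  have h1 : ∀ i, ‖C.coeff i • z ^ i‖ = ((|C.coeff i| : ℤ) : ℝ) := by
    intro i
    rw [zsmul_eq_mul, norm_mul, norm_pow, hz, one_pow, mul_one, Complex.norm_intCast,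
      Int.cast_abs]
  simp_rw [h1]
  push_cast
  apply le_of_eq
  symm
  apply Finset.sum_subset
  · intro i hi
    rw [Finset.mem_range, Nat.lt_succ_iff]
    exact le_natDegree_of_mem_supp i hi
  · intro i _ hi
    rw [notMem_support_iff.mp hi]
    simp

theorem one_le_len (C : ℤ[X]) (hC : C ≠ 0) : 1 ≤ len C := by
  have h1 : |C.leadingCoeff| ≤ len C := by
    rw [len]
    exact Finset.single_le_sum (f := fun i => |C.coeff i|) (fun i _ => abs_nonneg _)
      (natDegree_mem_support_of_nonzero hC)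
  have h2 := Int.one_le_abs (leadingCoeff_ne_zero.mpr hC)
  linarith

/-- sum of the sizes -/
def ss (w : List (ℕ × ℕ × ℤ)) : ℕ := (w.map fun x => x.2.1).sum

theorem prod_const_le (w : List (ℕ × ℕ × ℤ)) (C : ℝ) (hC : 1 ≤ C) :
    (w.map fun x => C ^ (x.2.1 - 1)).prod ≤ C ^ ss w := by
  induction w with
  | nil => simp [ss]
  | cons x w ih =>
    rw [List.map_cons, List.prod_cons]
    have h1 : ss (x :: w) = x.2.1 + ss w := by simp [ss]
    rw [h1, pow_add]
    apply mul_le_mul (pow_le_pow_right₀ hC (by omega)) ih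
    · apply List.prod_nonneg
      intro y hy
      rw [List.mem_map] at hy
      obtain ⟨z, _, rfl⟩ := hy
      positivity
    · positivity

theorem norm_prod_eq (w : List (ℕ × ℕ × ℤ)) (z : ℂ) :
    ‖(w.map fun x => (1 - z ^ x.2.1) ^ (x.2.1 - 1)).prod‖ =
        (w.map fun x => ‖1 - z ^ x.2.1‖ ^ (x.2.1 - 1)).prod := by
  induction w with
  | nil => simp
  | cons x w ih => simp only [List.map_cons, List.prod_cons, norm_mul, norm_pow, ih]

theorem Q_le (C : ℤ[X]) (w : List (ℕ × ℕ × ℤ)) (z : ℂ) (hz : ‖z‖ = 1) :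
    ‖aeval z (Qp C w)‖ ≤ len C * 2 ^ ss w := by
  rw [Qp_eval, norm_mul]
  apply mul_le_mul
  · exact norm_le_len C z hz
  · rw [norm_prod_eq]
    refine le_trans ?_ (prod_const_le w 2 (by norm_num))
    induction w with
    | nil => simp
    | cons x w ih =>
      simp only [List.map_cons, List.prod_cons]
      apply mul_le_mul
      · apply pow_le_pow_left₀ (norm_nonneg _)
        refine (norm_sub_le _ _).trans ?_
        rw [norm_pow, hz, one_pow, norm_one]
        norm_num
      · exact ih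
      · apply List.prod_nonneg
        intro y hy
        rw [List.mem_map] at hy
        obtain ⟨z, _, rfl⟩ := hy
        positivity
      · positivity
  · positivity
  · exact (norm_nonneg _).trans (norm_le_len C z hz)

/-- the product of the two bounds -/
theorem DQ_le (w : List (ℕ × ℕ × ℤ)) (hw : Valid N w) (D C : ℤ[X]) (hD : Compl N w D C)
    (z : ℂ) (hz : ‖z‖ = 1) (hQ : aeval z (Qp C w) ≠ 0) :
    ‖aeval z D‖ * ‖aeval z (Qp C w)‖ ≤ 2 ^ N * 38 ^ ss w := by
  have hz0 : z ≠ 0 := by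
    intro h
    rw [h, norm_zero] at hz
    exact zero_ne_one hz
  obtain ⟨k, hk⟩ := hD
  have h1 := hk z hz0
  rw [Qp_eval] at hQ ⊢
  have hne : ∀ x ∈ w, z ^ x.2.1 ≠ 1 := by
    intro x hx h
    apply hQ
    have h2 : (0 : ℂ) ∈ w.map fun x => (1 - z ^ x.2.1) ^ (x.2.1 - 1) := by
      rw [List.mem_map]
      refine ⟨x, hx, ?_⟩
      rw [h, sub_self, zero_pow]
      have := hw x hx
      omega
    rw [List.prod_eq_zero h2, mul_zero]
  have h2 := det_le z hz w hw hne
  have h3 : ‖aeval z D‖ * ‖aeval z C‖ = ‖(1 - braid N z w).det‖ := by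
    rw [← norm_mul, h1, norm_mul, norm_zpow, hz, _root_.one_zpow, one_mul]
  rw [norm_mul, ← mul_assoc, h3]
  refine (mul_le_mul_of_nonneg_right h2 (norm_nonneg _)).trans ?_
  rw [mul_assoc]
  apply mul_le_mul_of_nonneg_left _ (by positivity)
  refine le_trans (le_of_eq ?_) (prod_const_le w 38 (by norm_num))
  clear h1 h2 h3 hk hQ
  induction w with
  | nil => simp
  | cons x w ih =>
    simp only [List.map_cons, List.prod_cons, norm_mul, norm_pow]
    rw [← ih (fun y hy => hw y (List.mem_cons_of_mem _ hy))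
      (fun y hy => hne y (List.mem_cons_of_mem _ hy))]
    have hpos : ‖1 - z ^ x.2.1‖ ≠ 0 := by
      rw [norm_ne_zero_iff]
      intro h
      exact hne x List.mem_cons_self (by linear_combination -h)
    have h4 : (38 / ‖1 - z ^ x.2.1‖) ^ (x.2.1 - 1) * ‖1 - z ^ x.2.1‖ ^ (x.2.1 - 1) =
        38 ^ (x.2.1 - 1) := by
      rw [← mul_pow, div_mul_cancel₀ _ hpos]
    rw [← h4]
    ring

theorem zeros_codiscrete (Q : ℤ[X]) (hQ : Q ≠ 0) :
    {z : ℂ | aeval z Q ≠ 0} ∈ Filter.codiscreteWithin (Metric.sphere (0 : ℂ) |1|) := by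
  have hfin : {z : ℂ | aeval z Q = 0}.Finite := by
    have h : {z : ℂ | aeval z Q = 0} ⊆ (Q.map (Int.castRingHom ℂ)).roots.toFinset := by
      intro z hz
      simp only [Finset.mem_coe, Multiset.mem_toFinset]
      rw [mem_roots, IsRoot.def, eval_map]
      · exact hz
      · rw [Ne, Polynomial.map_eq_zero_iff Int.cast_injective]
        exact hQ
    exact (Finset.finite_toSet _).subset h
  have h1 : {z : ℂ | aeval z Q ≠ 0} = {z : ℂ | aeval z Q = 0}ᶜ := rfl
  rw [h1]
  exact Filter.codiscreteWithin_mono (Set.subset_univ _) hfin.compl_mem_codiscrete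

/-- **the mean of `log⁺` of a factor** -/
theorem mean_le (w : List (ℕ × ℕ × ℤ)) (hw : Valid N w) (D C : ℤ[X]) (hD : Compl N w D C)
    (hC : C ≠ 0) :
    Real.circleAverage (fun z : ℂ => Real.posLog ‖aeval z D‖) 0 1 ≤
      N * Real.log 2 + ss w * Real.log 38 + (Real.log (len C) + ss w * Real.log 2) := by
  set Q := Qp C w with hQdef
  have hQ0 : Q ≠ 0 := Qp_ne_zero C hC w hw
  have hlen : (1 : ℝ) ≤ len C := by exact_mod_cast one_le_len C hC
  have hcod := zeros_codiscrete Q hQ0
  set f₂ : ℂ → ℝ := fun z => if aeval z Q = 0 then 0 else Real.posLog ‖aeval z D‖ with hf₂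
  have hcongr : (fun z : ℂ => Real.posLog ‖aeval z D‖) =ᶠ[Filter.codiscreteWithin
      (Metric.sphere (0 : ℂ) |1|)] f₂ := by
    filter_upwards [hcod] with z hz
    rw [hf₂]
    simp only
    rw [if_neg hz]
  have hcont : ∀ P : ℤ[X], Continuous fun z : ℂ => Real.posLog ‖aeval z P‖ := by
    intro P
    exact Real.continuous_posLog.comp (continuous_norm.comp (P.continuous_aeval))
  have hint1 : ∀ P : ℤ[X], CircleIntegrable (fun z : ℂ => Real.posLog ‖aeval z P‖) 0 1 :=
    fun P => (hcont P).continuousOn.circleIntegrable'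
  have hint2 : CircleIntegrable f₂ 0 1 :=
    CircleIntegrable.congr_codiscreteWithin hcongr (hint1 D)
  have hint3 : CircleIntegrable (fun z : ℂ => Real.log ‖aeval z Q‖) 0 1 := by
    apply MeromorphicOn.circleIntegrable_log_norm
    intro z _
    have : AnalyticAt ℂ (fun z : ℂ => aeval z Q) z := by
      exact AnalyticAt.aeval_polynomial analyticAt_id Q
    exact this.meromorphicAt
  rw [Real.circleAverage_congr_codiscreteWithin hcongr one_ne_zero]
  set K : ℝ := N * Real.log 2 + ss w * Real.log 38 with hK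
  have hlog2 : 0 ≤ Real.log 2 := Real.log_nonneg (by norm_num)
  have hlog38 : 0 ≤ Real.log 38 := Real.log_nonneg (by norm_num)
  have hK0 : 0 ≤ K := by positivity
  have hexpK : (2 : ℝ) ^ N * 38 ^ ss w = Real.exp K := by
    rw [hK, Real.exp_add, mul_comm (N : ℝ), mul_comm (ss w : ℝ), Real.exp_mul, Real.exp_mul,
      Real.exp_log (by norm_num), Real.exp_log (by norm_num), Real.rpow_natCast,
      Real.rpow_natCast]
  set K2 : ℝ := Real.log (len C) + ss w * Real.log 2 with hK2
  have hbound : ∀ z ∈ Metric.sphere (0 : ℂ) |1|,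
      f₂ z ≤ (K + K2) - Real.log ‖aeval z Q‖ := by
    intro z hz
    have hz1 : ‖z‖ = 1 := by simpa using hz
    have hq2 : Real.posLog ‖aeval z Q‖ ≤ K2 := by
      have h1 := Q_le C w z hz1
      have h2 : Real.posLog ‖aeval z Q‖ ≤ Real.posLog (len C * 2 ^ ss w) :=
        Real.posLog_le_posLog (norm_nonneg _) h1
      have h3 : Real.posLog ((len C : ℝ) * 2 ^ ss w) = K2 := by
        have h5 : (1 : ℝ) ≤ 2 ^ ss w := one_le_pow₀ (by norm_num)
        have h4 : (1 : ℝ) ≤ len C * 2 ^ ss w := by nlinarith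
        rw [Real.posLog_eq_log (by rw [abs_of_nonneg (by linarith)]; exact h4),
          Real.log_mul (by positivity) (by positivity), Real.log_pow]
      rw [h3] at h2
      exact h2
    have hinv := Real.posLog_sub_posLog_inv (x := ‖aeval z Q‖)
    by_cases hzQ : aeval z Q = 0
    · have h1 : f₂ z = 0 := by rw [hf₂]; simp [hzQ]
      rw [h1, hzQ, norm_zero, Real.log_zero, sub_zero]
      have h2 : 0 ≤ Real.posLog ‖aeval z Q‖ := Real.posLog_nonneg
      linarith
    · have h1 : f₂ z = Real.posLog ‖aeval z D‖ := by rw [hf₂]; simp [hzQ]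
      rw [h1]
      have h2 := DQ_le w hw D C hD z hz1 hzQ
      rw [hexpK] at h2
      have hpos : 0 < ‖aeval z Q‖ := norm_pos_iff.mpr hzQ
      have h3 : ‖aeval z D‖ ≤ Real.exp K * ‖aeval z Q‖⁻¹ := by
        rw [← div_eq_mul_inv, le_div_iff₀ hpos]
        exact h2
      have h4 : Real.posLog ‖aeval z D‖ ≤ Real.posLog (Real.exp K * ‖aeval z Q‖⁻¹) :=
        Real.posLog_le_posLog (norm_nonneg _) h3
      have h5 : Real.posLog (Real.exp K * ‖aeval z Q‖⁻¹) ≤
          Real.posLog (Real.exp K) + Real.posLog ‖aeval z Q‖⁻¹ := Real.posLog_mul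
      have h6 : Real.posLog (Real.exp K) = K := by
        rw [Real.posLog_eq_log, Real.log_exp]
        rw [abs_of_pos (Real.exp_pos _)]
        exact Real.one_le_exp hK0
      linarith
  have hmono := Real.circleAverage_mono hint2
    ((circleIntegrable_const (K + K2) 0 1).sub hint3) hbound
  refine hmono.trans ?_
  have h7 : Real.circleAverage (fun z : ℂ => (K + K2) - Real.log ‖aeval z Q‖) 0 1 =
      (K + K2) - Real.circleAverage (fun z : ℂ => Real.log ‖aeval z Q‖) 0 1 := by
    rw [Real.circleAverage_fun_sub (circleIntegrable_const (K + K2) 0 1) hint3,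
      Real.circleAverage_const]
  have h8 : 0 ≤ Real.circleAverage (fun z : ℂ => Real.log ‖aeval z Q‖) 0 1 := by
    have h9 : Real.circleAverage (fun z : ℂ => Real.log ‖aeval z Q‖) 0 1 =
        (Q.map (Int.castRingHom ℂ)).logMahlerMeasure := by
      rw [logMahlerMeasure_def]
      congr 1
      ext z
      rw [eval_map]
      rfl
    rw [h9, logMahlerMeasure_eq_log_MahlerMeasure]
    apply Real.log_nonneg
    have h10 := leadingCoeff_le_mahlerMeasure (Q.map (Int.castRingHom ℂ))
    have h11 : 1 ≤ ‖(Q.map (Int.castRingHom ℂ)).leadingCoeff‖ := by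
      rw [leadingCoeff_map_of_injective (RingHom.injective_int _)]
      rw [eq_intCast, Complex.norm_intCast]
      have := Int.one_le_abs (leadingCoeff_ne_zero.mpr hQ0)
      exact_mod_cast this
    linarith
  have h12 : Real.circleAverage ((fun _ : ℂ => K + K2) - fun z : ℂ => Real.log ‖aeval z Q‖) 0 1 =
      Real.circleAverage (fun z : ℂ => (K + K2) - Real.log ‖aeval z Q‖) 0 1 := rfl
  rw [h12, h7]
  linarith

theorem mean_le' (w : List (ℕ × ℕ × ℤ)) (hw : Valid N w) (D C : ℤ[X]) (hD : Compl N w D C)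
    (hC : C ≠ 0) :
    Real.circleAverage (fun z : ℂ => Real.posLog ‖aeval z D‖) 0 1 ≤
      5 * (size N w + Real.log (len C)) - 1 := by
  refine (mean_le w hw D C hD hC).trans ?_
  have h1 : Real.log 2 ≤ 1 := by
    rw [Real.log_le_iff_le_exp (by norm_num)]
    have := Real.add_one_le_exp (1 : ℝ)
    linarith
  have h2 : Real.log 38 ≤ 4 := by
    rw [Real.log_le_iff_le_exp (by norm_num)]
    have h3 : Real.exp 4 = Real.exp 1 ^ 4 := by rw [← Real.exp_nat_mul]; norm_num
    rw [h3]
    have h4 := Real.exp_one_gt_d9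
    have h5 : (2.7 : ℝ) ≤ Real.exp 1 := by linarith
    calc (38 : ℝ) ≤ 2.7 ^ 4 := by norm_num
      _ ≤ _ := pow_le_pow_left₀ (by norm_num) h5 4
  have hlen : (1 : ℝ) ≤ len C := by exact_mod_cast one_le_len C hC
  have h3 : 0 ≤ Real.log (len C) := Real.log_nonneg hlen
  have h4 : ((size N w : ℕ) : ℝ) = N + 1 + ss w := by
    rw [size, ss]; push_cast; ring
  rw [h4]
  have hN : (0 : ℝ) ≤ N := Nat.cast_nonneg _
  have hs : (0 : ℝ) ≤ ss w := Nat.cast_nonneg _
  nlinarith

/-- **irreducible factors** -/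
theorem irreducible_case : ∃ c : ℝ, 0 < c ∧ ∀ (N : ℕ) (w : List (ℕ × ℕ × ℤ)) (D C : ℤ[X]),
    Valid N w → Compl N w D C → C ≠ 0 → Irreducible D →
      1 < (D.map (Int.castRingHom ℂ)).mahlerMeasure →
      Real.exp (c / (size N w + Real.log (len C)) ^ 3) ≤
        (D.map (Int.castRingHom ℂ)).mahlerMeasure := by
  obtain ⟨c, hc0, hc⟩ := Y947.DP.irr_case3
  refine ⟨c / 125, by positivity, ?_⟩
  intro N w D C hw hD hC hirr hM
  have h1 := hc D hirr hM
  have hpos : 0 < (D.map (Int.castRingHom ℂ)).mahlerMeasure := by linarith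
  rw [← Real.exp_log hpos]
  apply Real.exp_le_exp.mpr
  refine le_trans ?_ h1
  have h2 := mean_le' w hw D C hD hC
  have h3 : 0 ≤ Y947.DP.mp D := Y947.DP.mp_nonneg D
  have h4 : 1 + Y947.DP.mp D ≤ 5 * (size N w + Real.log (len C)) := by
    have : Y947.DP.mp D = Real.circleAverage (fun z : ℂ => Real.posLog ‖aeval z D‖) 0 1 := rfl
    linarith
  have h5 : (1 + Y947.DP.mp D) ^ 3 ≤ 125 * (size N w + Real.log (len C)) ^ 3 := by
    calc (1 + Y947.DP.mp D) ^ 3 ≤ (5 * (size N w + Real.log (len C))) ^ 3 :=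
          pow_le_pow_left₀ (by linarith) h4 3
      _ = _ := by ring
  rw [div_div]
  exact div_le_div_of_nonneg_left hc0.le (by positivity) h5

/-- **all factors** -/
theorem general_case (S : ℝ) : ∃ μ : ℝ, 1 < μ ∧ ∀ (N : ℕ) (w : List (ℕ × ℕ × ℤ)) (D C : ℤ[X]),
    Valid N w → Compl N w D C → C ≠ 0 → D ≠ 0 → size N w + Real.log (len C) ≤ S →
      (D.map (Int.castRingHom ℂ)).mahlerMeasure = 1 ∨
      μ ≤ (D.map (Int.castRingHom ℂ)).mahlerMeasure := by
  obtain ⟨μ, hμ, h⟩ := Pool.Agent.H261R2.CM.gap_logplus (5 * S)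
  refine ⟨μ, hμ, ?_⟩
  intro N w D C hw hD hC hD0 hS
  apply h D hD0
  have h1 := mean_le' w hw D C hD hC
  have h2 : Pool.Agent.H261R2.CM.mx1 D 1 =
      Real.circleAverage (fun z : ℂ => Real.posLog ‖aeval z D‖) 0 1 := by
    rw [Pool.Agent.H261R2.CM.D_circleAverage]
    unfold Pool.Agent.H261R2.CM.mx1
    refine intervalIntegral.integral_congr fun t _ => ?_
    simp only [Pool.Agent.H261R2.CM.ev1_one, norm_one]
    rw [Real.posLog_eq_log_max_one (norm_nonneg _), max_comm]
    congr 2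
    unfold Pool.Agent.H261R2.CM.ev1 Pool.Agent.H261R2.CM.toC
    rw [eval_map]
    rfl
  rw [h2]
  linarith

/-- Lehmer's polynomial (at `-X`) is the Alexander polynomial of the closure of `δ ^ 5 σ₁ ^ 2` on
three strands, the pretzel knot `(-2, 3, 7)`. -/
theorem lehmer_example : Compl 2 [(0, 3, 5), (0, 2, 2)]
    (X ^ 10 - X ^ 9 + X ^ 7 - X ^ 6 + X ^ 5 - X ^ 4 + X ^ 3 - X + 1) (1 + X + X ^ 2) := by
  refine ⟨0, fun t _ => ?_⟩
  have h1 : torus 2 t 0 3 = !![-t, 1; -t ^ 2, 0] := by
    ext a b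
    fin_cases a <;> fin_cases b <;>
      simp [torus, gen, List.range_succ, Matrix.mul_apply, Fin.sum_univ_two] <;> ring
  have h2 : torus 2 t 0 2 = !![-t, 1; 0, 1] := by
    ext a b
    fin_cases a <;> fin_cases b <;>
      simp [torus, gen, List.range_succ]
  have h3 : braid 2 t [(0, 3, 5), (0, 2, 2)] = !![-t, 1; -t ^ 2, 0] ^ 5 * !![-t, 1; 0, 1] ^ 2 := by
    simp only [braid, List.map_cons, List.map_nil, List.prod_cons, List.prod_nil, mul_one, h1, h2]
    rfl
  rw [h3]
  simp only [pow_succ, pow_zero, one_mul, Matrix.mul_fin_two, Matrix.one_fin_two,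
    Matrix.sub_apply, Matrix.det_fin_two]
  simp
  ring

end Pool.Agent.Q50.TB
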